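import Pool.Agent.Helper5.FV.Stmts

set_option autoImplicit false

open Finset Pool.Agent.Helper8.UN

namespace Pool.Agent.Helper5.FV

theorem st_QQC : ST_QQC := by
  classical
  intro n E W0 Q hQ
  unfold QQ at hQ
  rw [mem_filter] at hQ
  obtain ⟨-, h1, h2, h3⟩ := hQ
  constructor
  · choose g hg using fun B (hB : B ∈ Q) => (h1 B hB).1
    have hcard : Q.card ≤ W0.card := by
      rw [← Finset.card_attach]
      apply Finset.card_le_card_of_injOn (fun B => g B.1 B.2)
      · intro B _
        exact (mem_inter.1 (hg B.1 B.2)).2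
      · intro B _ B' _ hBB
        by_contra hne
        have hne' : B.1 ≠ B'.1 := fun h => hne (Subtype.ext h)
        have hd := h2 B.1 B.2 B'.1 B'.2 hne'
        have m1 := (mem_inter.1 (hg B.1 B.2)).1
        have m2 := (mem_inter.1 (hg B'.1 B'.2)).1
        have hBB' : g B.1 B.2 = g B'.1 B'.2 := hBB
        rw [← hBB'] at m2
        exact Finset.disjoint_left.1 hd m1 m2
    exact hcard
  · exact sdiff_subset_sdiff (Subset.refl _) h3

end Pool.Agent.Helper5.FV
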